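import Mathlib

set_option autoImplicit false

namespace Pool.Agent.Results.MP_cd30d4_co.Q1
open Finset

/-- the Taylor coefficient `c_{r,n}` of `e^{-x/(r+1)} B_r(x)` -/
noncomputable def c (r n : ℕ) : ℝ :=
  1 / (n.factorial : ℝ) * ∑ k ∈ Icc r n, (n.choose k : ℝ) * (-1 / ((r : ℝ) + 1)) ^ (n - k)

/-- `d s n` with a free parameter -/
noncomputable def d (a : ℝ) (r n : ℕ) : ℝ :=
  ∑ k ∈ range (n + 1), if r ≤ k then (n.choose k : ℝ) * a ^ (n - k) else 0

lemma d_succ (a : ℝ) (s n : ℕ) :
    d a (s + 1) (n + 1) = (1 + a) * d a (s + 1) n + (n.choose s : ℝ) * a ^ (n - s) := by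
  have h1 : d a (s + 1) (n + 1) =
      ∑ k ∈ range (n + 1), (if s ≤ k then (n.choose k : ℝ) * a ^ (n - k) else 0) +
      ∑ k ∈ range (n + 1), (if s ≤ k then (n.choose (k + 1) : ℝ) * a ^ (n - k) else 0) := by
    unfold d
    rw [sum_range_succ', if_neg (by omega), add_zero, ← sum_add_distrib]
    refine sum_congr rfl fun k _ => ?_
    by_cases h : s ≤ k
    · rw [if_pos (by omega), if_pos h, if_pos h, Nat.choose_succ_succ, Nat.add_sub_add_right]
      push_cast; ring
    · rw [if_neg (by omega), if_neg h, if_neg h, add_zero]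
  have h2 : ∑ k ∈ range (n + 1), (if s ≤ k then (n.choose (k + 1) : ℝ) * a ^ (n - k) else 0) =
      a * d a (s + 1) n := by
    unfold d
    rw [sum_range_succ, sum_range_succ' _ n, if_neg (show ¬ s + 1 ≤ 0 by omega), add_zero,
      Nat.choose_succ_self, mul_sum]
    simp only [Nat.cast_zero, zero_mul, ite_self, add_zero]
    refine sum_congr rfl fun k hk => ?_
    have := mem_range.1 hk
    by_cases h : s ≤ k
    · rw [if_pos h, if_pos (by omega), show n - k = (n - (k + 1)) + 1 by omega, pow_succ]; ring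
    · rw [if_neg h, if_neg (by omega), mul_zero]
  have h3 : ∑ k ∈ range (n + 1), (if s ≤ k then (n.choose k : ℝ) * a ^ (n - k) else 0) =
      d a (s + 1) n + (n.choose s : ℝ) * a ^ (n - s) := by
    unfold d
    have : (n.choose s : ℝ) * a ^ (n - s) =
        ∑ k ∈ range (n + 1), if k = s then (n.choose k : ℝ) * a ^ (n - k) else 0 := by
      rw [sum_ite_eq']
      split_ifs with h
      · rfl
      · rw [Nat.choose_eq_zero_of_lt (by simpa using h)]; simp
    rw [this, ← sum_add_distrib]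
    refine sum_congr rfl fun k _ => ?_
    by_cases h : k = s
    · rw [if_pos h.ge, if_neg (by omega), if_pos h, zero_add]
    · by_cases h' : s ≤ k
      · rw [if_pos h', if_pos (by omega), if_neg h, add_zero]
      · rw [if_neg h', if_neg (by omega), if_neg h, add_zero]
  rw [h1, h2, h3]; ring

lemma d_lt (a : ℝ) (r n : ℕ) (h : n < r) : d a r n = 0 :=
  sum_eq_zero fun k hk => if_neg (by have := mem_range.1 hk; omega)

lemma key (s j : ℕ) : 0 ≤ d (-1 / ((s : ℝ) + 2)) (s + 1) (s + j) ∧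
    0 ≤ d (-1 / ((s : ℝ) + 2)) (s + 1) (s + j + 1) := by
  set a : ℝ := -1 / ((s : ℝ) + 2) with ha
  have hs : (0 : ℝ) < (s : ℝ) + 2 := by positivity
  induction j with
  | zero =>
    refine ⟨(d_lt _ _ _ (by omega)).ge, ?_⟩
    rw [d_succ, d_lt _ _ _ (by omega)]; simp
  | succ j ih =>
    refine ⟨ih.2, ?_⟩
    have e1 := d_succ a s (s + j)
    have e2 := d_succ a s (s + j + 1)
    rw [show s + j - s = j by omega] at e1
    rw [show s + j + 1 - s = j + 1 by omega] at e2
    have hc : ((s + j).choose s : ℝ) * ((s : ℝ) + j + 1) = ((s + j + 1).choose s : ℝ) * (j + 1) := by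
      have := Nat.choose_mul_succ_eq (s + j) s
      rw [show s + j + 1 - s = j + 1 by omega] at this
      exact_mod_cast this
    have e3 : ((j : ℝ) + 1) * d a (s + 1) (s + j + 1 + 1) =
        (s * j / ((s : ℝ) + 2)) * d a (s + 1) (s + j + 1) +
        ((s + j + 1) * (s + 1) / ((s : ℝ) + 2) ^ 2) * d a (s + 1) (s + j) := by
      have f1 : (s * j / ((s : ℝ) + 2)) = (j + 1) * (1 + a) + a * (s + j + 1) := by
        rw [ha]; field_simp; ring
      have f2 : ((s + j + 1) * (s + 1) / ((s : ℝ) + 2) ^ 2) = -(a * (s + j + 1) * (1 + a)) := by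
        rw [ha]; field_simp; ring
      rw [f1, f2, e2, pow_succ]
      linear_combination (-(a * (s + j + 1))) * e1 - a * a ^ j * hc
    have : 0 ≤ ((j : ℝ) + 1) * d a (s + 1) (s + j + 1 + 1) := by
      rw [e3]
      exact add_nonneg (mul_nonneg (by positivity) ih.2) (mul_nonneg (by positivity) ih.1)
    exact nonneg_of_mul_nonneg_right this (by positivity) |> fun h => h

theorem result (r : ℕ) (hr : 1 ≤ r) (n : ℕ) : 0 ≤ c r n := by
  obtain ⟨s, rfl⟩ : ∃ s, r = s + 1 := ⟨r - 1, by omega⟩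
  have e : ∑ k ∈ Icc (s + 1) n, (n.choose k : ℝ) * (-1 / (((s + 1 : ℕ) : ℝ) + 1)) ^ (n - k) =
      d (-1 / ((s : ℝ) + 2)) (s + 1) n := by
    unfold d
    rw [← sum_filter]
    refine sum_congr (by ext k; simp; omega) fun k _ => ?_
    push_cast; ring_nf
  unfold c
  rw [e]
  refine mul_nonneg (by positivity) ?_
  by_cases h : n < s + 1
  · exact (d_lt _ _ _ h).ge
  · obtain ⟨j, rfl⟩ : ∃ j, n = s + j := ⟨n - s, by omega⟩
    exact (key s j).1

end Pool.Agent.Results.MP_cd30d4_co.Q1
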